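import Pool.Agent.W5h29.RF.Final

/-!
# MP_67ef3c_al: the complex Mal'cev completion determines the residual finiteness growth

Let `G₁`, `G₂` be finitely generated torsion-free nilpotent groups whose complex Mal'cev
completions are isomorphic. Then `RF_{G₁} ≈ RF_{G₂}`. This answers Q1 in the affirmative.

The rational Mal'cev completion of `G` is given, as in the setting of the problem, as the group of
rational points of a unipotent algebraic group over `ℚ`: `Pool.Agent.W5h29.RF.Malcev G n` consists
of a rational Lie algebra `L` of strictly upper triangular `n × n` matrices and an embedding of `G`
into the unipotent group `exp L` such that every element of `exp L` has a positive power in (the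
image of) `G`. Then `L` is the rational Mal'cev Lie algebra of `G`, and the complex completions are
isomorphic exactly when the Lie algebras `ℂ ⊗ L` are. (Torsion-freeness of `G` follows from the
embedding.)

The proof determines the growth: for nontrivial `G` it is `≈ (log n)^d`, where `d` is the least
integer such that the ideals of codimension at most `d` of the complex Lie algebra `ℂ ⊗ L` intersect
in zero (`Pool.Agent.W5h29.RF.Malcev.same_log`).

* Upper bound: by specialisation the ideals of codimension at most `d` may be taken over a number
  field `K`; modulo a prime of degree one of `K` above `p` they give normal subgroups of `G` of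
  index at most `p^d`, which detect every element that is not `1` modulo `p`. The primes with a
  prime of degree one above them have positive density (prime ideal theorem).
* Lower bound: the intersection of the ideals of codimension smaller than `d` over the algebraic
  closure of `ℚ` is invariant under the Galois group, so it contains a nonzero rational vector `z`.
  If for infinitely many primes `p` some normal subgroup of index `p^k`, `k < d`, did not contain
  `exp z`, an ultraproduct of the rings `ℤ / p^e` and a coefficient field in it would give an ideal
  of codimension at most `k` that does not contain `z`. Powers `exp (M z)`, where `M` is a power of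
  the least common multiple of `1, …, m`, then need normal subgroups of index at least `m^d`.
-/

set_option autoImplicit false

namespace Pool.Agent.Results.MP_67ef3c_al.ComplexCompletion

open Pool.Agent.W5h29.RF TensorProduct

universe u v

/-- **Finitely generated torsion-free nilpotent groups with isomorphic complex Mal'cev completions
have the same residual finiteness growth.** -/
theorem result (G₁ : Type u) [Group G₁] [Group.IsNilpotent G₁] (G₂ : Type v) [Group G₂]
    [Group.IsNilpotent G₂] (S₁ : Finset G₁) (S₂ : Finset G₂)
    (hS₁ : Subgroup.closure (S₁ : Set G₁) = ⊤) (hS₂ : Subgroup.closure (S₂ : Set G₂) = ⊤)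
    (n₁ n₂ : ℕ) (M₁ : Malcev G₁ n₁) (M₂ : Malcev G₂ n₂)
    (h : Nonempty ((ℂ ⊗[ℚ] M₁.L) ≃ₗ⁅ℂ⁆ (ℂ ⊗[ℚ] M₂.L))) :
    Same (RFG S₁) (RFG S₂) := by
  obtain ⟨e⟩ := h
  exact same_of_equiv M₁ S₁ hS₁ M₂ S₂ hS₂ e

end Pool.Agent.Results.MP_67ef3c_al.ComplexCompletion
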